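import Mathlib
import Pool.Agent.Y933.KH.Freq

/-!
# Most configurations: every space-time pattern has its frequency along every line

Take any configuration `y` and rewrite the cells `s, …, s + N - 1`.  For all but an exponentially
small proportion of the `6 ^ N` ways to do it, every pattern of `D` times and `D` cells stands in the
space-time diagram with the frequency which the uniform Bernoulli measure gives to it, up to `ε`, along
every row, every column and every other line with a direction vector of size at most `D` and of length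
at least `ε N` inside the reduced light cone of the window, up to time `A N`.
-/

set_option autoImplicit false

open MeasureTheory

namespace Pool.Agent.Results.MP_cc0c1a_nt.FrequenciesOfPatterns

open Pool.Agent.H429R2.Auto (F)

/-- the configuration `y` with the cells `s, …, s + N - 1` replaced by `v 0, …, v (N - 1)` -/
def rewrite (y : ℤ → Fin 6) (s : ℤ) {N : ℕ} (v : Fin N → Fin 6) : ℤ → Fin 6 := fun i =>
  if h : s ≤ i ∧ i < s + N then v ⟨(i - s).toNat, by omega⟩ else y i

/-- the pattern `w` stands at the cell `(n, i)` of the space-time diagram of `x` -/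
def Stands {D : ℕ} (w : Fin D → Fin D → Fin 6) (n : ℕ) (i : ℤ) (x : ℤ → Fin 6) : Prop :=
  ∀ a b : Fin D, F^[n + a] x (i + b) = w a b

/-- the uniform Bernoulli measure on the configurations: the cells are independent and uniformly
distributed on `{0, …, 5}` -/
noncomputable def bernoulli : Measure (ℤ → Fin 6) :=
  Measure.infinitePi fun _ : ℤ => (PMF.uniformOfFintype (Fin 6)).toMeasure

/-- the cell `(n, i)` lies in the light cone of the window `{s, …, s + N - 1}`, reduced by `δ N`, and
`n ≤ A N` -/
def InCone (A : ℕ) (δ : ℝ) (N : ℕ) (s : ℤ) (n : ℕ) (i : ℤ) : Prop :=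
  n ≤ A * N ∧ (s : ℝ) - n * (Real.log (3 / 2) / Real.log 6) + δ * N ≤ i ∧
    (i : ℝ) ≤ s + N + n - δ * N

/-- For all `A`, `D` and `δ, ε > 0` there are `c, C > 0` such that for all `N`, all configurations `y`
and all `s`, for all but at most `C e^(-c N) 6^N` of the words `v` of length `N` the following holds
for `x = rewrite y s v`. Let `w` be a pattern of `D` times and `D` cells, `(a, b) ≠ (0, 0)` a
direction with `0 ≤ a ≤ D` and `|b| ≤ D`, and let the cells `(n + t a, i + t b)`, `0 ≤ t < T`, lie in
the reduced light cone, where `T ≥ ε N`. Then the number of the `t < T` for which `w` stands at the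
cell `(n + t a, i + t b)` differs from `T` times the Bernoulli measure of the configurations
in whose diagram `w` stands at `(0, 0)` by at most `ε T`. -/
theorem result (A D : ℕ) (δ ε : ℝ) (hδ : 0 < δ) (hε : 0 < ε) : ∃ c C : ℝ, 0 < c ∧ 0 < C ∧
    ∀ (N : ℕ) (y : ℤ → Fin 6) (s : ℤ),
    ({v : Fin N → Fin 6 | ¬ ∀ (w : Fin D → Fin D → Fin 6) (a : ℕ) (b : ℤ), a ≤ D → |b| ≤ D →
      (a ≠ 0 ∨ b ≠ 0) → ∀ (n : ℕ) (i : ℤ) (T : ℕ), ε * N ≤ T →
      (∀ t < T, InCone A δ N s (n + t * a) (i + t * b)) →
      |({t : ℕ | t < T ∧ Stands w (n + t * a) (i + t * b) (rewrite y s v)}.ncard : ℝ) -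
        T * bernoulli.real {x | Stands w 0 0 x}| ≤ ε * T}.ncard : ℝ) ≤
      C * Real.exp (-(c * N)) * 6 ^ N := by
  classical
  obtain ⟨c, C, hc, hC, h⟩ := Pool.Agent.Y933.KH.freq_main A D δ ε hδ hε
  refine ⟨c, C, hc, hC, fun N y s => ?_⟩
  obtain ⟨Bad, hBad, hgood⟩ := h N y s
  refine le_trans (Nat.cast_le.2 ?_) hBad
  rw [← Set.ncard_coe_finset]
  refine Set.ncard_le_ncard ?_ (Finset.finite_toSet _)
  intro v hv
  by_contra hvB
  apply hv
  intro w a b ha hb hab n i T hT hcone
  have h1 := hgood v hvB w a b ha hb hab n i T hT hcone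
  have h2 : {t : ℕ | t < T ∧ Stands w (n + t * a) (i + t * b) (rewrite y s v)}.ncard =
      Pool.Agent.Y933.KH.cnt w n i a b T (Pool.Agent.Y933.KH.put y s v) := by
    unfold Pool.Agent.Y933.KH.cnt
    rw [← Set.ncard_coe_finset]
    congr 1
    ext t
    simp only [Set.mem_ofPred_eq, Finset.coe_filter, Finset.mem_range]
    rfl
  rw [h2]
  exact h1

end Pool.Agent.Results.MP_cc0c1a_nt.FrequenciesOfPatterns
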