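import Pool.Agent.H429R2.Auto
import Pool.Agent.Y928.SW.Win

/-!
# Joint linear complexity of windows of the rows of the automaton

Windows of length `L` in the rows `n ≤ C L` of the orbit of a finite nonzero configuration have no
common linear relation of order less than `(T / (T + 1) - ε) L`, the value for random words.
-/

set_option autoImplicit false

open Finset

namespace Pool.Agent.Results.MP_cc0c1a_nt.JointComplexityOfRowWindows

open Pool.Agent.H429R2.Auto (Conf F Rep rep_iter exists_rep)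

/-- the cells of a row as digits of `A0 9 ^ n` -/
theorem cell {x : Conf} {A0 k : ℕ} (hx : Rep x ((A0 : ℝ) / 6 ^ k)) (n u : ℕ) (i : ℤ)
    (hi : i + u = n + k) : ((F^[n] x i : Fin 6) : ℕ) = A0 * 3 ^ (2 * n) / 6 ^ u % 6 := by
  have hβ : (0 : ℝ) ≤ (A0 : ℝ) / 6 ^ k := by positivity
  rw [rep_iter hβ hx n i]
  have e3 : (6 : ℝ) ^ i * ((3 / 2) ^ n * (A0 / 6 ^ k)) =
      ((A0 * 3 ^ (2 * n) : ℕ) : ℝ) / ((6 ^ u : ℕ) : ℝ) := by
    rw [show i = ((n + k : ℕ) : ℤ) - (u : ℕ) by push_cast; omega,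
      zpow_sub₀ (by norm_num), zpow_natCast, zpow_natCast]
    push_cast
    have h9 : (3 : ℝ) ^ (2 * n) = 6 ^ n * (3 / 2) ^ n := by rw [pow_mul, ← mul_pow]; norm_num
    rw [h9, pow_add]
    field_simp
  rw [e3, Nat.floor_div_eq_div]

/-- the cells of a row to the right of `n + k` are zero -/
theorem cell_zero {x : Conf} {A0 k : ℕ} (hx : Rep x ((A0 : ℝ) / 6 ^ k)) (n : ℕ) (i : ℤ)
    (hi : (n + k : ℤ) < i) : F^[n] x i = 0 := by
  have hβ : (0 : ℝ) ≤ (A0 : ℝ) / 6 ^ k := by positivity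
  obtain ⟨l, hl⟩ : ∃ l : ℕ, i = (n + k : ℤ) + (l + 1 : ℕ) := ⟨(i - (n + k) - 1).toNat, by omega⟩
  have h1 := rep_iter hβ hx n i
  have e3 : (6 : ℝ) ^ i * ((3 / 2) ^ n * (A0 / 6 ^ k)) = ((6 * (6 ^ l * (A0 * 3 ^ (2 * n))) : ℕ) : ℝ) := by
    rw [hl, show (n + k : ℤ) + (l + 1 : ℕ) = ((n + k + (l + 1) : ℕ) : ℤ) by push_cast; ring,
      zpow_natCast]
    push_cast
    have h9 : (3 : ℝ) ^ (2 * n) = 6 ^ n * (3 / 2) ^ n := by rw [pow_mul, ← mul_pow]; norm_num
    rw [h9, pow_add, pow_add, pow_succ]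
    field_simp
  rw [e3, Nat.floor_natCast, Nat.mul_mod_right] at h1
  exact Fin.ext h1

/-- Let `x` be a finite nonzero configuration; fix `T ≥ 1`, `k`, `C`, a real number `θ ≥ 1` and
`ε > 0`.  For all sufficiently large `L`: take `T` windows of `L` cells, the window `l` beginning at
the position `s_l` of the row `F ^ n_l x` with `n_l ≤ C L`, with a nonzero cell to the left of the
window and a nonzero cell of its row at or to the right of `s_l + θ L - 1`; for `l ≠ l'` let
`|(s_l - s_l') + (n_l - n_l') log_6 (3 / 2)| ≥ (T - 1) / (T + 1) * L`.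

(1) Let the words `w_l` over a field of characteristic zero agree with the `T` windows outside `k`
places.  If the words satisfy a common linear relation `∑_{j ≤ m} c_j w_l (i + j) = 0`
(`i + m < L`) with coefficients `c_0, …, c_m` which are not all zero, then
`m ≥ (min (T / (T + 1)) (θ log_6 2) / (k + 1) - ε) L`.

(2) The `T` windows themselves satisfy a common rational relation of some order
`m ≤ T / (T + 1) * L + 1`. -/
theorem result (x : ℤ → Fin 6) (hfin : {i | x i ≠ 0}.Finite) (hx : ∃ i, x i ≠ 0)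
    (T k C : ℕ) (hT : 1 ≤ T) (θ ε : ℝ) (hθ : 1 ≤ θ) (hε : 0 < ε) :
    ∃ M : ℕ, ∀ L : ℕ, M ≤ L → ∀ (n : Fin T → ℕ) (s : Fin T → ℤ),
      (∀ l, n l ≤ C * L) →
      (∀ l, (∃ i : ℤ, i < s l ∧ F^[n l] x i ≠ 0) ∧
        ∃ i : ℤ, (s l : ℝ) + θ * L - 1 ≤ i ∧ F^[n l] x i ≠ 0) →
      (∀ l l', l ≠ l' → ((T : ℝ) - 1) / (T + 1) * L ≤
        |((s l : ℝ) - s l') + ((n l : ℝ) - n l') * Real.logb 6 (3 / 2)|) →
      (∀ (𝕜 : Type) [Field 𝕜] [CharZero 𝕜] (w : Fin T → ℕ → 𝕜),
        {i : ℕ | i < L ∧ ∃ l, w l i ≠ (((F^[n l] x (s l + i) : Fin 6) : ℕ) : 𝕜)}.ncard ≤ k →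
        ∀ (m : ℕ) (c : ℕ → 𝕜), (∃ j ≤ m, c j ≠ 0) →
        (∀ l i, i + m < L → ∑ j ∈ Finset.range (m + 1), c j * w l (i + j) = 0) →
        (min ((T : ℝ) / (T + 1)) (θ * Real.logb 6 2) / (k + 1) - ε) * L ≤ m) ∧
      ∃ m : ℕ, (m : ℝ) ≤ (T : ℝ) / (T + 1) * L + 1 ∧ ∃ c : ℕ → ℚ, (∃ j ≤ m, c j ≠ 0) ∧
        ∀ l i, i + m < L → ∑ j ∈ Finset.range (m + 1),
          c j * (((F^[n l] x (s l + ((i + j : ℕ) : ℤ)) : Fin 6) : ℕ) : ℚ) = 0 := by
  obtain ⟨A0, k0, hrep, hA0, -⟩ := exists_rep (x := x) hfin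
  have hA0 : 0 < A0 := hA0 (by
    rintro rfl
    obtain ⟨i, hi⟩ := hx
    exact hi rfl)
  have hA0R : (1 : ℝ) ≤ A0 := by exact_mod_cast hA0
  have hTR : (1 : ℝ) ≤ T := by exact_mod_cast hT
  have hkR : (0 : ℝ) ≤ k := Nat.cast_nonneg k
  have hl2 : 0 < Real.log 2 := Real.log_pos (by norm_num)
  have hl3 : 0 < Real.log 3 := Real.log_pos (by norm_num)
  have hl6 : 0 < Real.log 6 := Real.log_pos (by norm_num)
  have hl6' : Real.log 6 = Real.log 2 + Real.log 3 := by
    rw [← Real.log_mul (by norm_num) (by norm_num)]; norm_num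
  have hlA0 : 0 ≤ Real.log A0 := Real.log_nonneg hA0R
  have h62 : Real.logb 6 2 * Real.log 6 = Real.log 2 := by
    rw [Real.logb, div_mul_cancel₀ _ hl6.ne']
  have h632 : Real.logb 6 (3 / 2) * Real.log 6 = Real.log 3 - Real.log 2 := by
    rw [Real.logb, div_mul_cancel₀ _ hl6.ne', Real.log_div (by norm_num) (by norm_num)]
  obtain ⟨lam, hlam⟩ : ∃ lam : ℝ, lam = min ((T : ℝ) / (T + 1)) (θ * Real.logb 6 2) := ⟨_, rfl⟩
  have hlam1 : lam ≤ (T : ℝ) / (T + 1) := by rw [hlam]; exact min_le_left _ _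
  have hlam2 : lam ≤ θ * Real.logb 6 2 := by rw [hlam]; exact min_le_right _ _
  have hlam3 : lam ≤ 1 := hlam1.trans (by rw [div_le_one (by linarith)]; linarith)
  have hlam0 : 0 ≤ lam := by
    rw [hlam]
    apply le_min (by positivity)
    have : 0 ≤ Real.logb 6 2 := by rw [Real.logb]; positivity
    nlinarith
  rw [← hlam]
  obtain ⟨L0, hL0⟩ := Pool.Agent.Y928.SW.windows {2, 3}
    (by
      intro ℓ hℓ
      simp only [mem_insert, mem_singleton] at hℓ
      rcases hℓ with rfl | rfl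
      · exact Nat.prime_two
      · exact Nat.prime_three) 6 (by norm_num)
    (by
      intro ℓ hℓ hd
      have h1 : ℓ ∣ 2 * 3 := hd
      simp only [mem_insert, mem_singleton]
      rcases hℓ.dvd_mul.1 h1 with h | h
      · left; exact (Nat.prime_dvd_prime_iff_eq hℓ Nat.prime_two).1 h
      · right; exact (Nat.prime_dvd_prime_iff_eq hℓ Nat.prime_three).1 h)
    A0 hA0 T hT (2 * (C * (2 * (k + 1))) * Real.log 3 + 1) (ε / 2) (by positivity) (by positivity)
  refine ⟨max ((k + 1) * (L0 + 1) + k) (max (2 * k)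
    ⌈(1 + Real.log A0 / Real.log 6) * 2 / ε⌉₊), ?_⟩
  intro L hL n s hn hcells hsep
  have hL1 : (k + 1) * (L0 + 1) + k ≤ L := le_trans (le_max_left _ _) hL
  have hL2 : 2 * k ≤ L := le_trans (le_trans (le_max_left _ _) (le_max_right _ _)) hL
  have hL3 : 1 + Real.log A0 / Real.log 6 ≤ ε / 2 * L := by
    have h1 : ⌈(1 + Real.log A0 / Real.log 6) * 2 / ε⌉₊ ≤ L :=
      le_trans (le_trans (le_max_right _ _) (le_max_right _ _)) hL
    have h2 := Nat.le_ceil ((1 + Real.log A0 / Real.log 6) * 2 / ε)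
    have h3 : (⌈(1 + Real.log A0 / Real.log 6) * 2 / ε⌉₊ : ℝ) ≤ L := by exact_mod_cast h1
    have h4 : (1 + Real.log A0 / Real.log 6) * 2 / ε ≤ L := by linarith
    rw [div_le_iff₀ hε] at h4
    linarith
  constructor
  swap
  · -- the upper bound
    obtain ⟨m, hm⟩ : ∃ m, m = (T * L + T) / (T + 1) := ⟨_, rfl⟩
    have hdm := Nat.div_add_mod (T * L + T) (T + 1)
    have hmod := Nat.mod_lt (T * L + T) (show 0 < T + 1 by omega)
    rw [← hm] at hdm
    have hge : T * L ≤ (T + 1) * m := by omega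
    obtain ⟨c, hc0, hc⟩ := Pool.Agent.Y928.SW.exists_rel T L m
      (fun l i => (((F^[n l] x (s l + ((i : ℕ) : ℤ)) : Fin 6) : ℕ) : ℚ)) (by
        rcases le_total m L with h | h
        · obtain ⟨d, rfl⟩ := Nat.exists_eq_add_of_le h
          rw [Nat.add_sub_cancel_left]
          nlinarith
        · rw [Nat.sub_eq_zero_of_le h]; omega)
    refine ⟨m, ?_, c, hc0, hc⟩
    have h1 : ((T : ℝ) + 1) * m ≤ T * L + T := by
      have : (T + 1) * m ≤ T * L + T := by omega
      exact_mod_cast this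
    have h2 : (m : ℝ) ≤ (T * L + T) / (T + 1) := by
      rw [le_div_iff₀ (by linarith)]
      linarith
    refine h2.trans ?_
    rw [add_div, mul_div_right_comm]
    have h3 : (T : ℝ) / (T + 1) ≤ 1 := by rw [div_le_one (by linarith)]; linarith
    linarith
  -- the lower bound
  intro 𝕜 _ _ w herr m c hc0 hc
  have hEfin : {i : ℕ | i < L ∧ ∃ l, w l i ≠ (((F^[n l] x (s l + i) : Fin 6) : ℕ) : 𝕜)}.Finite :=
    (Set.finite_lt_nat L).subset fun i hi => hi.1
  obtain ⟨u, v, huv, hvL, hfree, hlen⟩ := Pool.Agent.Y928.SW.free_sub L k hEfin.toFinset (by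
    rw [← Set.ncard_eq_toFinset_card _ hEfin]; exact herr)
  have hfree' : ∀ i, u ≤ i → i < v → ∀ l, w l i = (((F^[n l] x (s l + i) : Fin 6) : ℕ) : 𝕜) := by
    intro i h1 h2 l
    by_contra h
    apply hfree i h1 h2
    rw [Set.Finite.mem_toFinset]
    exact ⟨by omega, l, h⟩
  obtain ⟨L', hL'⟩ : ∃ L', L' = v - u := ⟨_, rfl⟩
  rw [← hL'] at hlen
  have hLL0 : L0 ≤ L' := by
    by_contra h
    push Not at h
    have h1 : (k + 1) * L' ≤ (k + 1) * L0 := Nat.mul_le_mul_left _ h.le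
    have h2 : (k + 1) * (L0 + 1) = (k + 1) * L0 + (k + 1) := by ring
    omega
  have hLL2 : L ≤ 2 * (k + 1) * L' := by
    have h1 : 2 * (k + 1) * L' = 2 * ((k + 1) * L') := by ring
    omega
  have hL'L : L' + u ≤ L := by omega
  have hL'LR : (L' : ℝ) + u ≤ L := by exact_mod_cast hL'L
  have hu0 : (0 : ℝ) ≤ u := Nat.cast_nonneg u
  have hL'0 : (0 : ℝ) ≤ L' := Nat.cast_nonneg L'
  -- the places from the right
  have hex : ∀ l, ∃ t : ℕ, s l + v + t = n l + k0 + 1 ∧ θ * L' ≤ (t : ℝ) + L' := by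
    intro l
    obtain ⟨i, hi1, hi2⟩ := (hcells l).2
    have h1 : i ≤ n l + k0 := by
      by_contra hcon
      exact hi2 (cell_zero hrep (n l) i (by omega))
    have h2 : (L : ℝ) ≤ θ * L := by
      have : (0 : ℝ) ≤ L := Nat.cast_nonneg L
      nlinarith
    have h3 : s l + L - 1 ≤ i := by
      have h4 : ((s l + L - 1 : ℤ) : ℝ) ≤ i := by push_cast; linarith
      exact_mod_cast h4
    obtain ⟨t, ht⟩ : ∃ t : ℕ, s l + v + t = n l + k0 + 1 :=
      ⟨(n l + k0 + 1 - s l - v).toNat, by omega⟩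
    refine ⟨t, ht, ?_⟩
    have h5 : i + 1 ≤ s l + u + (t + L') := by omega
    have h6 : ((i + 1 : ℤ) : ℝ) ≤ ((s l + u + (t + L') : ℤ) : ℝ) := by exact_mod_cast h5
    push_cast at h6
    have h7 : θ * (L' + u) ≤ θ * L := mul_le_mul_of_nonneg_left hL'LR (by linarith)
    have h8 : 1 * (u : ℝ) ≤ θ * u := mul_le_mul_of_nonneg_right hθ hu0
    linarith
  choose t ht htθ using hex
  have hval : ∀ l i, i < L' → ((F^[n l] x (s l + ((u + i : ℕ) : ℤ)) : Fin 6) : ℕ) =
      A0 * 3 ^ (2 * n l) / 6 ^ (t l + (L' - 1 - i)) % 6 := by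
    intro l i hi
    apply cell hrep
    have := ht l
    push_cast
    omega
  -- the relation over the rationals
  obtain ⟨c', hc'0, hc'⟩ := Pool.Agent.Y928.SW.rat_rel 𝕜 {p : Fin T × ℕ // p.2 + m < L'} m
    (fun p j => ((A0 * 3 ^ (2 * n p.1.1) / 6 ^ (t p.1.1 + (L' - 1 - (p.1.2 + j))) % 6 : ℕ) : ℚ))
    c hc0 (by
      rintro ⟨⟨l, i⟩, hi⟩
      simp only at hi
      have h1 := hc l (u + i) (by omega)
      rw [← h1]
      refine Finset.sum_congr rfl fun j hj => ?_
      rw [Finset.mem_range] at hj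
      congr 1
      rw [hfree' (u + i + j) (by omega) (by omega) l]
      have h2 := hval l (i + j) (by omega)
      rw [show u + i + j = u + (i + j) by ring, h2]
      push_cast
      rfl)
  have hmain := hL0 L' hLL0 (fun l => 3 ^ (2 * n l)) t
    (fun l => Nat.one_le_pow _ _ (by norm_num))
    (by
      intro l ℓ hℓ hd
      have h1 := (Nat.prime_dvd_prime_iff_eq hℓ Nat.prime_three).1 (hℓ.dvd_of_dvd_pow hd)
      simp [h1])
    (by
      intro l
      push_cast
      rw [Real.log_pow]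
      have h1 : (n l : ℝ) ≤ C * L := by exact_mod_cast hn l
      have h2 : (L : ℝ) ≤ 2 * (k + 1) * L' := by exact_mod_cast hLL2
      have h3 : (n l : ℝ) ≤ C * (2 * (k + 1) * L') :=
        h1.trans (mul_le_mul_of_nonneg_left h2 (Nat.cast_nonneg C))
      push_cast
      have h4 := mul_le_mul_of_nonneg_right h3 hl3.le
      nlinarith)
    (by
      intro l
      obtain ⟨i, hi1, hi2⟩ := (hcells l).1
      obtain ⟨U, hU⟩ : ∃ U : ℕ, i + U = n l + k0 := ⟨(n l + k0 - i).toNat, by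
        have := ht l
        omega⟩
      have h1 := cell hrep (n l) U i hU
      have h2 : 6 ^ U ≤ A0 * 3 ^ (2 * n l) := by
        by_contra hcon
        rw [Nat.div_eq_of_lt (by omega), Nat.zero_mod] at h1
        exact hi2 (Fin.ext h1)
      have h3 : 6 ^ (t l + L') ≤ 6 ^ U := Nat.pow_le_pow_right (by norm_num) (by
        have := ht l
        omega)
      omega)
    (by
      intro l l' hll
      have h1 := hsep l l' hll
      have h2 : (Real.log ((3 ^ (2 * n l) : ℕ) : ℝ) - t l * Real.log ((6 : ℕ) : ℝ)) -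
          (Real.log ((3 ^ (2 * n l') : ℕ) : ℝ) - t l' * Real.log ((6 : ℕ) : ℝ)) =
          (((s l : ℝ) - s l') + ((n l : ℝ) - n l') * Real.logb 6 (3 / 2)) * Real.log 6 := by
        have e1 : (t l : ℝ) = n l + k0 + 1 - s l - v := by
          have := ht l
          have h : ((s l + v + t l : ℤ) : ℝ) = ((n l + k0 + 1 : ℤ) : ℝ) := by rw [this]
          push_cast at h
          linarith
        have e2 : (t l' : ℝ) = n l' + k0 + 1 - s l' - v := by
          have := ht l'
          have h : ((s l' + v + t l' : ℤ) : ℝ) = ((n l' + k0 + 1 : ℤ) : ℝ) := by rw [this]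
          push_cast at h
          linarith
        push_cast
        rw [Real.log_pow, Real.log_pow, e1, e2]
        push_cast
        have e3 : ((n l : ℝ) - n l') * Real.logb 6 (3 / 2) * Real.log 6 =
            ((n l : ℝ) - n l') * (Real.log 3 - Real.log 2) := by rw [mul_assoc, h632]
        rw [add_mul, e3, hl6']
        ring
      rw [h2, abs_mul, abs_of_pos hl6]
      push_cast
      apply mul_le_mul_of_nonneg_right _ hl6.le
      refine le_trans ?_ h1
      apply mul_le_mul_of_nonneg_left (by linarith)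
      exact div_nonneg (by linarith) (by linarith))
    (lam * L' * Real.log 6 - Real.log A0)
    (by
      push_cast
      have h1 := mul_le_mul_of_nonneg_right (mul_le_mul_of_nonneg_right hlam1 hL'0) hl6.le
      linarith)
    (by
      intro Q hQ hQΛ l hd
      have h1 : 2 ^ (t l + L') ∣ Q * A0 := by
        have h2 : 2 ^ (t l + L') ∣ Q * A0 * 3 ^ (2 * n l) :=
          (pow_dvd_pow_of_dvd (by norm_num : (2 : ℕ) ∣ 6) _).trans hd
        exact (Nat.Coprime.pow _ _ (by norm_num : Nat.Coprime 2 3)).dvd_of_dvd_mul_right h2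
      have h2 := Nat.le_of_dvd (by positivity) h1
      have h3 : ((2 : ℝ) ^ (t l + L')) ≤ Q * A0 := by exact_mod_cast h2
      have hQR : (1 : ℝ) ≤ Q := by exact_mod_cast hQ
      have h4 := Real.log_le_log (by positivity) h3
      rw [Real.log_pow, Real.log_mul (by positivity) (by positivity)] at h4
      push_cast at h4
      have h5 : lam * L' * Real.log 6 ≤ θ * L' * Real.log 2 := by
        rw [← h62]
        have := mul_le_mul_of_nonneg_right (mul_le_mul_of_nonneg_right hlam2 hL'0) hl6.le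
        linarith
      have h6 := mul_le_mul_of_nonneg_right (htθ l) hl2.le
      linarith)
    m c' hc'0
    (by
      intro l i hi
      exact hc' ⟨(l, i), hi⟩)
  push_cast at hmain
  have h1 : lam * L' - Real.log A0 / Real.log 6 ≤ m + ε / 2 * L' := by
    have h2 : (lam * L' - Real.log A0 / Real.log 6) * Real.log 6 ≤ (m + ε / 2 * L') * Real.log 6 := by
      rw [sub_mul, div_mul_cancel₀ _ hl6.ne']
      exact hmain
    exact le_of_mul_le_mul_right h2 hl6
  have h2 : ((L : ℝ) - k) / (k + 1) ≤ L' := by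
    rw [div_le_iff₀ (by linarith)]
    have : (L : ℝ) ≤ (k + 1) * L' + k := by exact_mod_cast hlen
    linarith
  have h3 : lam * (((L : ℝ) - k) / (k + 1)) ≤ lam * L' := mul_le_mul_of_nonneg_left h2 hlam0
  have h4 : lam / (k + 1) * L - 1 ≤ lam * (((L : ℝ) - k) / (k + 1)) := by
    have e : lam * (((L : ℝ) - k) / (k + 1)) = lam / (k + 1) * L - lam * (k / (k + 1)) := by
      field_simp
    rw [e]
    have h5 : (k : ℝ) / (k + 1) ≤ 1 := by rw [div_le_one (by linarith)]; linarith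
    have h6 : 0 ≤ (k : ℝ) / (k + 1) := by positivity
    nlinarith
  have h7 : ε / 2 * (L' : ℝ) ≤ ε / 2 * L := mul_le_mul_of_nonneg_left (by linarith) (by linarith)
  rw [sub_mul]
  linarith

end Pool.Agent.Results.MP_cc0c1a_nt.JointComplexityOfRowWindows
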