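import Mathlib
import Pool.Agent.Y933.KH.Box

/-!
# Rewriting `N` consecutive cells at random: the law of the space-time diagram up to time `A N`

Take any configuration `y` and rewrite the cells `s, …, s + N - 1` at random.  Inside the forward
light cone of this window, whose left edge moves with speed `log_6 (3/2)` and whose right edge moves
with speed `1`, and up to time `A N`, the joint law of any `k` space-time boxes of side `κ N` agrees
with the law under the uniform Bernoulli measure, up to `C e^(-c N)` in total variation.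
-/

set_option autoImplicit false

open MeasureTheory

namespace Pool.Agent.Results.MP_cc0c1a_nt.LawOfSpaceTimeBoxes

open Pool.Agent.H429R2.Auto (F)

/-- the configuration `y` with the cells `s, …, s + N - 1` replaced by `v 0, …, v (N - 1)` -/
def rewrite (y : ℤ → Fin 6) (s : ℤ) {N : ℕ} (v : Fin N → Fin 6) : ℤ → Fin 6 := fun i =>
  if h : s ≤ i ∧ i < s + N then v ⟨(i - s).toNat, by omega⟩ else y i

/-- the contents of the `k` space-time boxes `{n_j, …, n_j + L - 1} × {i_j, …, i_j + L - 1}` in the
space-time diagram of `x` -/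
def contents {k : ℕ} (L : ℕ) (n : Fin k → ℕ) (i : Fin k → ℤ) (x : ℤ → Fin 6) :
    Fin k → Fin L → Fin L → Fin 6 := fun j a b => F^[n j + a] x (i j + b)

/-- the uniform Bernoulli measure on the configurations: the cells are independent and uniformly
distributed on `{0, …, 5}` -/
noncomputable def bernoulli : Measure (ℤ → Fin 6) :=
  Measure.infinitePi fun _ : ℤ => (PMF.uniformOfFintype (Fin 6)).toMeasure

/-- For all `k`, `A` and `δ > 0` there are `κ, c, C > 0` such that for all `N`, all configurations `y`
and all `s`: let `n_j ≤ A N` and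
`s - n_j log_6 (3/2) + δ N ≤ i_j ≤ s + N + n_j - δ N` for `j < k`, and let `L ≤ κ N`.  For every
set `S` of possible contents of `k` boxes of side `L`, the proportion of the `6 ^ N` words `v` for
which the contents of the boxes with the corners `(n_j, i_j)` in the space-time diagram of
`rewrite y s v` lie in `S` differs from the probability of `S` under the uniform Bernoulli measure by
at most `C e^(-c N)`. -/
theorem result (k A : ℕ) (δ : ℝ) (hδ : 0 < δ) : ∃ κ c C : ℝ, 0 < κ ∧ 0 < c ∧ 0 < C ∧
    ∀ (N : ℕ) (y : ℤ → Fin 6) (s : ℤ) (L : ℕ) (n : Fin k → ℕ) (i : Fin k → ℤ), (L : ℝ) ≤ κ * N →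
    (∀ j, n j ≤ A * N ∧
      (s : ℝ) - n j * (Real.log (3 / 2) / Real.log 6) + δ * N ≤ i j ∧
      (i j : ℝ) ≤ s + N + n j - δ * N) →
    ∀ S : Set (Fin k → Fin L → Fin L → Fin 6),
    |({v : Fin N → Fin 6 | contents L n i (rewrite y s v) ∈ S}.ncard : ℝ) / 6 ^ N -
      bernoulli.real {x | contents L n i x ∈ S}| ≤ C * Real.exp (-(c * N)) := by
  classical
  obtain ⟨κ, c, C, hκ, hc, h⟩ := Pool.Agent.Y933.KH.box_law k A δ hδ
  refine ⟨κ, c, max C 1, hκ, hc, by positivity, fun N y s L n i hL hn S => ?_⟩
  have h1 := h N y s L n i hL hn S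
  have h2 : {v : Fin N → Fin 6 | contents L n i (rewrite y s v) ∈ S}.ncard =
      ((Finset.univ : Finset (Fin N → Fin 6)).filter
        (fun v => Pool.Agent.Y933.KH.boxes L n i (Pool.Agent.Y933.KH.put y s v) ∈ S)).card := by
    rw [← Set.ncard_coe_finset]
    congr 1
    ext v
    simp only [Set.mem_ofPred_eq, Finset.coe_filter, Finset.mem_univ, true_and]
    rfl
  rw [h2]
  refine h1.trans ?_
  gcongr
  exact le_max_left _ _

end Pool.Agent.Results.MP_cc0c1a_nt.LawOfSpaceTimeBoxes
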