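import Pool.Agent.Results.MP_cc0c1a_nt.AlmostAllPositions
import Pool.Agent.Y854.GM.Win
import Pool.Agent.Y854.GM.Rate

/-!
# Every word occurs at every position of certain windows of positions

Let `v ≥ 1` be a sequence with `∑ v_n ^ (-t) < ∞` for all `t > 0`, for example `v_n = b ^ n`. For almost every `α > 0`:
for every nonzero finite configuration `x` and every word `w` there is `θ > 0` such that for all but finitely many `n` the
word `w` occurs in the orbit of `x` starting at EVERY position `j` with `|j - α v_n| ≤ v_n ^ θ`. For every `κ > 1` and all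
`α` outside a set of dimension less than one, the word `w` occurs at the position `⌊α n ^ κ⌋` for all but `N ^ (1 - δ)`
of the `n ≤ N`.
-/

set_option autoImplicit false

namespace Pool.Agent.Results.MP_cc0c1a_nt.WindowsOfPositions

open Pool.Agent.H429R2.Auto Finset MeasureTheory

/-- The configuration `x` shows the word `w` starting at position `j`. -/
def Shows (x : Conf) (w : List (Fin 6)) (j : ℤ) : Prop :=
  ∀ (i : ℕ) (h : i < w.length), x (j + i) = w[i]

/-- the exponent of convergence of the sequence `v` is at most `τ` -/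
def ExpLe (v : ℕ → ℝ) (τ : ℝ) : Prop := ∀ t : ℝ, τ < t → Summable (fun n : ℕ => (v n) ^ (-t))

/-- the positions `j ≥ 0` at which no `F^n(x)`, `n ≥ 0`, shows `w` -/
def Missed (x : Conf) (w : List (Fin 6)) : Set ℕ := {j | ∀ n : ℕ, ¬ Shows (F^[n] x) w (j : ℤ)}

open Classical in
lemma count (x : Conf) (hx : IsFin x) (hx0 : x ≠ 0) (w : List (Fin 6)) :
    ∃ δ : ℝ, 0 < δ ∧ δ < 1 ∧ ∃ C : ℝ, 0 ≤ C ∧ ∀ X : ℕ, 1 ≤ X →
      (((Ioc 0 X).filter (fun t => t ∈ Missed x w)).card : ℝ) ≤ C * (X : ℝ) ^ (1 - δ) := by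
  obtain ⟨-, δ, hδ, C, hC⟩ := AlmostAllPositions.result x hx hx0 w
  have hm0 : 0 < min δ (1 / 2) := lt_min hδ (by norm_num)
  refine ⟨min δ (1 / 2), hm0, lt_of_le_of_lt (min_le_right _ _) (by norm_num), |C| * 2, by positivity,
    fun X hX => ?_⟩
  have hX1 : (1 : ℝ) ≤ X := by exact_mod_cast hX
  have hfin : (AlmostAllPositions.missed x w ∩ Set.Icc 0 (X : ℤ)).Finite :=
    (Set.finite_Icc (0 : ℤ) (X : ℤ)).subset Set.inter_subset_right
  have h1 : (((Ioc 0 X).filter (fun t => t ∈ Missed x w)).card) ≤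
      (AlmostAllPositions.missed x w ∩ Set.Icc 0 (X : ℤ)).ncard := by
    have h2 : (((Ioc 0 X).filter (fun t => t ∈ Missed x w)).image (fun j : ℕ => (j : ℤ))).card =
        ((Ioc 0 X).filter (fun t => t ∈ Missed x w)).card :=
      Finset.card_image_of_injective _ (fun a b hab => by exact_mod_cast hab)
    rw [← h2, ← Set.ncard_coe_finset]
    apply Set.ncard_le_ncard _ hfin
    intro j hj
    rw [mem_coe, mem_image] at hj
    obtain ⟨i, hi, rfl⟩ := hj
    rw [mem_filter, mem_Ioc] at hi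
    refine ⟨hi.2, ?_, ?_⟩
    · exact_mod_cast Nat.zero_le i
    · exact_mod_cast hi.1.2
  have h2 : (0 : ℝ) < X + 1 := by positivity
  calc (((Ioc 0 X).filter (fun t => t ∈ Missed x w)).card : ℝ)
      ≤ ((AlmostAllPositions.missed x w ∩ Set.Icc 0 (X : ℤ)).ncard : ℝ) := by exact_mod_cast h1
    _ ≤ C * ((X : ℝ) + 1) ^ (1 - δ) := hC X
    _ ≤ |C| * ((X : ℝ) + 1) ^ (1 - δ) := mul_le_mul_of_nonneg_right (le_abs_self C) (by positivity)
    _ ≤ |C| * ((X : ℝ) + 1) ^ (1 - min δ (1 / 2)) := by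
        apply mul_le_mul_of_nonneg_left _ (abs_nonneg C)
        apply Real.rpow_le_rpow_of_exponent_le (by linarith)
        have := min_le_left δ (1 / 2)
        linarith
    _ ≤ |C| * (2 * (X : ℝ) ^ (1 - min δ (1 / 2))) := by
        apply mul_le_mul_of_nonneg_left _ (abs_nonneg C)
        have hm1 : 0 ≤ 1 - min δ (1 / 2) := by
          have := min_le_right δ (1 / 2)
          linarith
        calc ((X : ℝ) + 1) ^ (1 - min δ (1 / 2)) ≤ (2 * (X : ℝ)) ^ (1 - min δ (1 / 2)) :=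
              Real.rpow_le_rpow h2.le (by linarith) hm1
          _ = 2 ^ (1 - min δ (1 / 2)) * (X : ℝ) ^ (1 - min δ (1 / 2)) := Real.mul_rpow (by norm_num) (by linarith)
          _ ≤ 2 * (X : ℝ) ^ (1 - min δ (1 / 2)) := by
              apply mul_le_mul_of_nonneg_right _ (by positivity)
              calc (2 : ℝ) ^ (1 - min δ (1 / 2)) ≤ 2 ^ (1 : ℝ) :=
                    Real.rpow_le_rpow_of_exponent_le (by norm_num) (by linarith)
                _ = 2 := Real.rpow_one 2
    _ = |C| * 2 * (X : ℝ) ^ (1 - min δ (1 / 2)) := by ring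

/-- the finite configurations -/
abbrev FC : Type := {x : Conf // IsFin x}

instance : Countable FC := by
  have : Function.Injective (fun x : FC => (Finsupp.ofSupportFinite x.1 (by
      have := x.2
      unfold IsFin at this
      exact this) : ℤ →₀ Fin 6)) := by
    intro x y hxy
    have h := congrArg (fun g : ℤ →₀ Fin 6 => (g : ℤ → Fin 6)) hxy
    exact Subtype.ext h
  exact this.countable

open Classical in
/-- **Theorem.** (1) Let `v ≥ 1` be a sequence with exponent of convergence `0` (for example `v_n = b ^ n`, (2)). There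
are sets `E_k`, `k ∈ ℕ`, of Hausdorff dimension less than one, whose union is a null set, such that for each `α > 0`
outside of all `E_k`, each nonzero finite configuration `x` and each word `w` there is `θ > 0` such that for all but
finitely many `n`, for EVERY position `j` with `|j - α v_n| ≤ v_n ^ θ`, some `F^m(x)` shows `w` starting at `j`.
(3) For each `κ > 1` there is a set `E` of dimension less than one such that for each `α > 0` outside `E`, each nonzero
finite configuration `x` and each word `w` there is `δ > 0` such that for all large `N` at most `N ^ (1 - δ)` of the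
positions `⌊α n ^ κ⌋`, `n ≤ N`, are never the start of `w` in the orbit of `x`. -/
theorem result :
    (∀ v : ℕ → ℝ, (∀ n, 1 ≤ v n) → ExpLe v 0 →
      ∃ E : ℕ → Set ℝ, (∀ k, dimH (E k) < 1) ∧ volume (⋃ k, E k) = 0 ∧
        ∀ α : ℝ, 0 < α → (∀ k, α ∉ E k) → ∀ x : Conf, IsFin x → x ≠ 0 → ∀ w : List (Fin 6),
          ∃ θ : ℝ, 0 < θ ∧ ∃ n₀ : ℕ, ∀ n : ℕ, n₀ ≤ n → ∀ j : ℤ, |(j : ℝ) - α * v n| ≤ (v n) ^ θ →
            ∃ m : ℕ, Shows (F^[m] x) w j) ∧
    (∀ b : ℝ, 1 < b → ExpLe (fun n : ℕ => b ^ n) 0) ∧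
    (∀ κ : ℝ, 1 < κ → ∃ E : Set ℝ, dimH E < 1 ∧ ∀ α : ℝ, 0 < α → α ∉ E →
      ∀ x : Conf, IsFin x → x ≠ 0 → ∀ w : List (Fin 6), ∃ δ : ℝ, 0 < δ ∧ δ < 1 ∧ ∃ N₀ : ℕ, ∀ N : ℕ, N₀ ≤ N →
        (((Icc 1 N).filter (fun n : ℕ => ∀ m : ℕ, ¬ Shows (F^[m] x) w ((⌊α * (n : ℝ) ^ κ⌋₊ : ℕ) : ℤ))).card : ℝ) ≤
          (N : ℝ) ^ (1 - δ)) := by
  refine ⟨fun v hv hE => ?_, fun b hb => Pool.Agent.Y854.GM.expLe_geom b hb, fun κ hκ => ?_⟩
  · have key : ∀ z : FC × List (Fin 6), ∃ E : Set ℝ, dimH E < 1 ∧ ∀ α : ℝ, 0 < α → α ∉ E → z.1.1 ≠ 0 →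
        ∃ θ : ℝ, 0 < θ ∧ ∃ n₀ : ℕ, ∀ n : ℕ, n₀ ≤ n → ∀ j : ℤ, |(j : ℝ) - α * v n| ≤ (v n) ^ θ →
            ∃ m : ℕ, Shows (F^[m] z.1.1) z.2 j := by
      rintro ⟨⟨x, hx⟩, w⟩
      by_cases hx0 : x = 0
      · exact ⟨∅, by simp, fun α _ _ h => absurd hx0 h⟩
      obtain ⟨δ, hδ, hδ1, C, hC0, hC⟩ := count x hx hx0 w
      obtain ⟨E, h1, h2⟩ := Pool.Agent.Y854.GM.win_nat (Missed x w) hv le_rfl hE (s := 1 - δ) (θ := δ / 2)
        (by linarith) (by linarith) (fun ε hε => ⟨C, fun X hX => (hC X hX).trans (mul_le_mul_of_nonneg_left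
          (Real.rpow_le_rpow_of_exponent_le (by exact_mod_cast hX) (by linarith)) hC0)⟩)
      refine ⟨E, lt_of_le_of_lt h1 ?_, fun α hα hαE _ => ?_⟩
      · rw [ENNReal.ofReal_lt_one, div_lt_one (by linarith)]
        linarith
      · obtain ⟨n₀, hn⟩ := h2 α hα hαE
        refine ⟨δ / 2, by positivity, n₀, fun n hn1 j hj => ?_⟩
        rcases lt_or_ge j 0 with hj0 | hj0
        · exfalso
          have h3 : |((0 : ℕ) : ℝ) - α * v n| ≤ (v n) ^ (δ / 2) := by
            refine le_trans ?_ hj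
            have hv0 : 0 < α * v n := mul_pos hα (lt_of_lt_of_le one_pos (hv n))
            have hj1 : (j : ℝ) < 0 := by exact_mod_cast hj0
            rw [Nat.cast_zero, zero_sub, abs_neg, abs_of_pos hv0, abs_of_neg (by linarith)]
            linarith
          exact lt_irrefl _ (hn n hn1 0 h3).1
        · lift j to ℕ using hj0
          have h4 := (hn n hn1 j (by exact_mod_cast hj)).2
          unfold Missed at h4
          rw [Set.mem_setOf_eq] at h4
          push Not at h4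
          exact h4
    choose G hG1 hG2 using key
    haveI : Nonempty (FC × List (Fin 6)) := ⟨(⟨0, by
      unfold IsFin
      simp⟩, [])⟩
    obtain ⟨f, hf⟩ := exists_surjective_nat (FC × List (Fin 6))
    refine ⟨fun k => G (f k), fun k => hG1 _, ?_, fun α hα hαE x hx hx0 w => ?_⟩
    · rw [measure_iUnion_null_iff]
      intro k
      rw [← hausdorffMeasure_real]
      have h1 := hausdorffMeasure_of_dimH_lt (s := G (f k)) (d := 1) (by
        rw [ENNReal.coe_one]
        exact hG1 _)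
      rw [NNReal.coe_one] at h1
      exact h1
    · obtain ⟨k, hk⟩ := hf (⟨x, hx⟩, w)
      have h1 := hαE k
      simp only [hk] at h1
      exact hG2 (⟨x, hx⟩, w) α hα h1 hx0
  · obtain ⟨E, hE, h⟩ := Pool.Agent.Y854.GM.sets_pow κ hκ
      (fun z : FC × List (Fin 6) => Missed z.1.1 z.2)
    refine ⟨E, hE, fun α hα hαE x hx hx0 w => ?_⟩
    obtain ⟨δ', hδ', hδ1', C, hC0, hC⟩ := count x hx hx0 w
    obtain ⟨δ, hδ, hδ1, N₀, hN⟩ := h α hα hαE (⟨x, hx⟩, w) δ' C hδ' ⟨1, fun X hX => hC X hX⟩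
    refine ⟨δ, hδ, hδ1, N₀, fun N hNN => le_trans ?_ (hN N hNN)⟩
    have hsub : (Icc 1 N).filter
        (fun n : ℕ => ∀ m : ℕ, ¬ Shows (F^[m] x) w ((⌊α * (n : ℝ) ^ κ⌋₊ : ℕ) : ℤ)) ⊆
        (Icc 1 N).filter (fun n : ℕ => ⌊α * (n : ℝ) ^ κ⌋₊ ∈ Missed x w) := by
      intro n hn
      rw [mem_filter] at hn ⊢
      exact hn
    exact_mod_cast Finset.card_le_card hsub

end Pool.Agent.Results.MP_cc0c1a_nt.WindowsOfPositions
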